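import Pool.Agent.TH272.Nec.ArithBound

set_option autoImplicit false

/-!
# Circuits with few shared gates for the permanent and its multiples, exact and approximate

An arithmetic circuit in which `S` gates are used more than once is written as a sequence of
`S + 1` formulas; a leaf of a formula is a variable, a constant, or a reference to the value of an
earlier formula. Let `R` be the number of the references, that is, the total fan-out of the shared
gates. If the circuit computes the `m × m` permanent, or any nonzero polynomial which vanishes where
the permanent vanishes, then at least `(1/8 - o(1)) m ^ 2 (m ^ 2 - 4 R - S) / log₂ m` of its leaves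
are variables. So there are `Ω(m ^ 4 / log m)` leaves as long as there is only a small constant
times `m ^ 2` sharing. The same holds for the approximation by circuits over `K(ε)`.

The jets of multiples of the permanent are those of the starting files `Pool/Agent/H567` and
`Pool/Agent/H53R6`.
-/

namespace Pool.Agent.Results.MP_8b1d3b_lc.FanoutThreshold

open MvPolynomial Pool.Agent.TH272.Nec.Arith

/-- Let `K` be a field of characteristic zero and let `g ≠ 0` be a polynomial over `K` in the
entries of an `m × m` matrix which vanishes at all matrices over `K` with permanent zero, for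
example the permanent or a nonzero multiple of it, of any degree. Circuits over `K` which compute
`g`, and circuits over `K(ε)` whose polynomial is defined at `ε = 0` and specializes to `g`, have
at least `(1/8 - o(1)) m ^ 2 (m ^ 2 - 4 R - S) / log₂ m` leaves that are variables, where `S` is the
number of shared gates and `R` is their total fan-out. -/
theorem result {K : Type} [Field K] [CharZero K] (m : ℕ) (g : MvPolynomial (Fin m × Fin m) K)
    (hg : g ≠ 0)
    (hv : ∀ X : Matrix (Fin m) (Fin m) K, X.permanent = 0 → eval (fun p => X p.1 p.2) g = 0) :
    (∀ C : Circuit K (Fin m × Fin m), C.poly = g →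
      m * (m - 2 * Nat.clog 2 m) * ((m - 2 * Nat.clog 2 m) ^ 2 - (2 + 4 * C.refs + C.shared))
        ≤ 8 * Nat.clog 2 m * C.leaves) ∧
    (∀ C : Circuit (RatFunc K) (Fin m × Fin m),
      (∀ d : Fin m × Fin m →₀ ℕ, (C.poly.coeff d).denom.eval 0 ≠ 0 ∧
        RatFunc.eval (RingHom.id K) 0 (C.poly.coeff d) = g.coeff d) →
      m * (m - 2 * Nat.clog 2 m) * ((m - 2 * Nat.clog 2 m) ^ 2 - (2 + 4 * C.refs + C.shared))
        ≤ 8 * Nat.clog 2 m * C.leaves) := by
  have hvan : ∀ p, eval p (Pool.Agent.H567.Nec.gperm K m) = 0 → eval p g = 0 := by
    intro p hp
    rw [eval_gperm'] at hp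
    exact hv _ hp
  refine ⟨fun C hC => ?_, fun C hC => border m g hg hvan C hC⟩
  refine exact m C (by rw [hC]; exact hg) ?_
  rw [hC]
  exact hvan

end Pool.Agent.Results.MP_8b1d3b_lc.FanoutThreshold
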